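import Mathlib
import Pool.Agent.H554.CB.Final

set_option autoImplicit false

namespace Pool.Agent.Results.MP_6c02f2_nt.TripleLog

/-- For every `K` the reciprocal sum of the primes `y ≤ p < n` whose `K`-th power does not divide
the central binomial coefficient is at most `max 0 (log (log log n / log y)) + C`, uniformly in
`n ≥ 16` and `y ≥ 2`. With `K = 1` and `y = 2` this is `f n ≤ log log log n + C`. -/
theorem result (K : ℕ) : ∃ C : ℝ, ∀ n : ℕ, 16 ≤ n → ∀ y : ℝ, 2 ≤ y →
    ∑ p ∈ (Finset.range n).filter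
        (fun p : ℕ => p.Prime ∧ y ≤ (p : ℝ) ∧ ¬ p ^ K ∣ Nat.centralBinom n), (1 : ℝ) / (p : ℝ) ≤
      max 0 (Real.log (Real.log (Real.log n)) - Real.log (Real.log y)) + C :=
  Pool.Agent.H554.CB.uniform K

end Pool.Agent.Results.MP_6c02f2_nt.TripleLog
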